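import Pool.Agent.W544.PG.Defs

/-!
Project PG (owner helper544), part CEN: the centre of the algebra generated by `kk`.
-/

set_option autoImplicit false

open Matrix Finset Module

namespace Pool.Agent.W338.PG

open Pool.Agent.W544.PG

noncomputable section

variable {p q : ℕ}

/-- central projections -/
def CP (A : Submodule ℂ (Matrix (Fin q) (Fin q) ℂ)) (e : Matrix (Fin q) (Fin q) ℂ) : Prop :=
  e ∈ A ∧ (∀ a ∈ A, e * a = a * e) ∧ e * e = e ∧ eᴴ = e

variable {G : Gr p q} {A : Submodule ℂ (Matrix (Fin q) (Fin q) ℂ)}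
  {e : Matrix (Fin q) (Fin q) ℂ}

theorem fact0 (hA : G.Adm A) (he : CP A e)
    {X : Matrix (Fin p) (Fin p) ℂ × Matrix (Fin q) (Fin q) ℂ} (hX : X ∈ G.h0) :
    X.2 * e = e * X.2 := by
  obtain ⟨h1, h2, h3, -⟩ := he
  have h4 := hA.nor X hX e h1
  have h5 := h2 _ h4
  have h6 : X.2 * e - e * X.2 = 2 • (e * (X.2 * e - e * X.2)) := by
    calc X.2 * e - e * X.2 = X.2 * (e * e) - (e * e) * X.2 := by rw [h3]
      _ = (X.2 * e - e * X.2) * e + e * (X.2 * e - e * X.2) := by noncomm_ring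
      _ = _ := by rw [← h5, two_smul]
  have h7 : e * (X.2 * e - e * X.2) = 0 := by
    have h8 := congrArg (fun Y => e * Y) h6
    simp only [two_smul, mul_add] at h8
    rw [← mul_assoc, h3] at h8
    simpa using h8
  rw [h7, smul_zero] at h6
  exact sub_eq_zero.1 h6

theorem fact1 (hA : G.Adm A) (he : CP A e) {F F' : Matrix (Fin p) (Fin q) ℂ} (hF : F ∈ G.h1)
    (hF' : F' ∈ G.h1) : ((F'ᴴ * F)ᵀ - F'ᴴ * F) * e = e * ((F'ᴴ * F)ᵀ - F'ᴴ * F) :=
  fact0 hA he (G.b1s F hF F' hF')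

/-- the span of the images -/
def U (G : Gr p q) (e : Matrix (Fin q) (Fin q) ℂ) : Submodule ℂ (Fin p → ℂ) :=
  Submodule.span ℂ {w | ∃ F ∈ G.h1, ∃ u, w = (F * e) *ᵥ u}

theorem U_stab (hA : G.Adm A) (he : CP A e) : ∀ X ∈ G.h0, ∀ w ∈ U G e, X.1 *ᵥ w ∈ U G e := by
  intro X hX w hw
  refine Submodule.span_induction (p := fun w _ => X.1 *ᵥ w ∈ U G e) ?_ ?_ ?_ ?_ hw
  · rintro _ ⟨F, hF, u, rfl⟩
    have h1 := G.b01 X hX (F * e) (hA.mod F hF e he.1)
    have h2 : X.1 *ᵥ (F * e) *ᵥ u = ((X.1 * (F * e) - F * e * X.2) * e) *ᵥ u +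
        (F * e) *ᵥ (X.2 *ᵥ u) := by
      rw [mulVec_mulVec, mulVec_mulVec, ← add_mulVec]
      congr 1
      have h3 := fact0 hA he hX
      have h4 : F * e * X.2 * e = F * e * X.2 := by
        rw [Matrix.mul_assoc (F * e), h3, ← Matrix.mul_assoc, Matrix.mul_assoc F, he.2.2.1]
      rw [Matrix.sub_mul, h4, Matrix.mul_assoc X.1, Matrix.mul_assoc F, he.2.2.1]
      abel
    rw [h2]
    exact Submodule.add_mem _ (Submodule.subset_span ⟨_, h1, _, rfl⟩)
      (Submodule.subset_span ⟨_, hF, _, rfl⟩)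
  · rw [mulVec_zero]
    exact Submodule.zero_mem _
  · intro x y _ _ hx hy
    rw [mulVec_add]
    exact Submodule.add_mem _ hx hy
  · intro c x _ hx
    rw [mulVec_smul]
    exact Submodule.smul_mem _ c hx

theorem mat_eq_zero {r s : ℕ} {M : Matrix (Fin r) (Fin s) ℂ} (h : ∀ u, M *ᵥ u = 0) : M = 0 := by
  refine Matrix.toLin'.injective (LinearMap.ext fun u => ?_)
  rw [Matrix.toLin'_apply, h, map_zero, LinearMap.zero_apply]

theorem kerB (hK : G.KerB) {M : Matrix (Fin q) (Fin q) ℂ} (h : ∀ F ∈ G.h1, F * M = 0) :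
    M = 0 := by
  refine mat_eq_zero fun u => hK _ fun F hF => ?_
  rw [mulVec_mulVec, h F hF, zero_mulVec]

theorem U_bot (hK : G.KerB) (h : U G e = ⊥) : e = 0 := by
  refine kerB hK fun F hF => mat_eq_zero fun u => ?_
  have h1 : (F * e) *ᵥ u ∈ U G e := Submodule.subset_span ⟨F, hF, u, rfl⟩
  rw [h] at h1
  exact (Submodule.mem_bot ℂ).1 h1

theorem U_top (h : U G e = ⊤) {M : Matrix (Fin p) (Fin q) ℂ}
    (hM : ∀ F ∈ G.h1, (F * e)ᴴ * M = 0) : M = 0 := by
  rw [← Matrix.conjTranspose_eq_zero]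
  refine mat_eq_zero fun w => ?_
  have hw : w ∈ U G e := by rw [h]; trivial
  refine Submodule.span_induction (p := fun w _ => Mᴴ *ᵥ w = 0) ?_ ?_ ?_ ?_ hw
  · rintro _ ⟨F, hF, u, rfl⟩
    have h1 := congrArg conjTranspose (hM F hF)
    rw [conjTranspose_mul, conjTranspose_conjTranspose, conjTranspose_zero] at h1
    rw [mulVec_mulVec, h1, zero_mulVec]
  · exact mulVec_zero _
  · intro x y _ _ hx hy
    rw [mulVec_add, hx, hy, add_zero]
  · intro c x _ hx
    rw [mulVec_smul, hx, smul_zero]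

theorem CP.one_sub (hA : IsStar A) (he : CP A e) : CP A (1 - e) := by
  obtain ⟨h1, h2, h3, h4⟩ := he
  refine ⟨A.sub_mem hA.1 h1, fun a ha => ?_, ?_, ?_⟩
  · rw [sub_mul, mul_sub, h2 a ha, one_mul, mul_one]
  · rw [sub_mul, one_mul, mul_sub, mul_one, h3, sub_self, sub_zero]
  · rw [conjTranspose_sub, conjTranspose_one, h4]

theorem cen1 : S_cen1 := by
  intro p q G A hA hI hK e heA hec heP heT
  have he : CP A e := ⟨heA, hec, heP.1, heP.2⟩
  have he' := he.one_sub hA.star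
  have h0 : ∀ F ∈ G.h1, ∀ F' ∈ G.h1, (F * e)ᴴ * (F' * (1 - e)) = 0 := by
    intro F hF F' hF'
    have h1 := fact1 hA he (hA.mod F hF e heA) (hA.mod F' hF' _ he'.1)
    obtain ⟨N, hN⟩ : ∃ N, N = (F' * (1 - e))ᴴ * (F * e) := ⟨_, rfl⟩
    have e1 : N * e = N := by
      rw [hN, Matrix.mul_assoc, Matrix.mul_assoc F, heP.1]
    have e2 : e * N = 0 := by
      rw [hN, conjTranspose_mul, he'.2.2.2, ← Matrix.mul_assoc, ← Matrix.mul_assoc e,
        Matrix.mul_sub, Matrix.mul_one, heP.1, sub_self, Matrix.zero_mul, Matrix.zero_mul]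
    have e3 : e * Nᵀ = Nᵀ := by
      have := congrArg transpose e1
      rwa [transpose_mul, heT] at this
    have e4 : Nᵀ * e = 0 := by
      have := congrArg transpose e2
      rwa [transpose_mul, heT, transpose_zero] at this
    rw [← hN, sub_mul, mul_sub, e1, e2, e3, e4, zero_sub, sub_zero] at h1
    have h2 : N = 0 := by
      rw [← e1, ← neg_eq_zero, ← neg_mul, h1, e4]
    have h3 := congrArg conjTranspose (hN.symm.trans h2)
    rwa [conjTranspose_mul, conjTranspose_conjTranspose, conjTranspose_zero] at h3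
  rcases hI (U G e) (U_stab hA he) with h | h
  · exact Or.inl (U_bot hK h)
  · right
    have h1 : 1 - e = 0 := kerB hK fun F' hF' => U_top h fun F hF => h0 F hF F' hF'
    exact (sub_eq_zero.1 h1).symm

theorem CP.tr (hA : G.Adm A) (he : CP A e) : CP A eᵀ := by
  obtain ⟨h1, h2, h3, h4⟩ := he
  refine ⟨hA.tr e h1, fun a ha => ?_, ?_, ?_⟩
  · have h5 := congrArg transpose (h2 _ (hA.tr a ha))
    rw [transpose_mul, transpose_mul, transpose_transpose] at h5
    exact h5.symm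
  · rw [← transpose_mul, h3]
  · have h5 := congrArg transpose h4
    exact h5

theorem CP.mul (hA : IsStar A) {g : Matrix (Fin q) (Fin q) ℂ} (hg : CP A g) (he : CP A e) :
    CP A (g * e) := by
  refine ⟨hA.2.1 g hg.1 e he.1, fun a ha => ?_, ?_, ?_⟩
  · rw [mul_assoc, he.2.1 a ha, ← mul_assoc, hg.2.1 a ha, mul_assoc]
  · rw [mul_assoc, ← mul_assoc e, ← hg.2.1 e he.1, mul_assoc g, he.2.2.1, ← mul_assoc, hg.2.2.1]
  · rw [conjTranspose_mul, he.2.2.2, hg.2.2.2, hg.2.1 e he.1]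

theorem alt (hA : G.Adm A) (hI : G.IrrA) (hK : G.KerB) (he : CP A e) :
    e = 0 ∨ e = 1 ∨ eᵀ = 1 - e := by
  have h1 : ∀ g, CP A g → g * gᵀ = 0 ∨ g = 1 := by
    intro g hg
    have h2 := hg.mul hA.star (hg.tr hA)
    have h3 := cen1 p q G A hA hI hK (g * gᵀ) h2.1 h2.2.1 h2.2.2 (by
      rw [transpose_mul, transpose_transpose])
    rcases h3 with h3 | h3
    · exact Or.inl h3
    · right
      calc g = g * (g * gᵀ) := by rw [h3, mul_one]
        _ = g * gᵀ := by rw [← mul_assoc, hg.2.2.1]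
        _ = 1 := h3
  rcases h1 e he with h2 | h2
  · rcases h1 (1 - e) (he.one_sub hA.star) with h3 | h3
    · right; right
      rw [transpose_sub, transpose_one, sub_mul, mul_sub, mul_sub, one_mul, one_mul, mul_one,
        h2, sub_zero] at h3
      have h4 : 1 - eᵀ - e = 0 := h3
      calc eᵀ = 1 - e - (1 - eᵀ - e) := by abel
        _ = 1 - e := by rw [h4, sub_zero]
    · left
      have h4 : e = 1 - (1 - e) := by abel
      rw [h4, h3, sub_self]
  · exact Or.inr (Or.inl h2)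

/-- the part A: commutativity -/
theorem comm (hA : G.Adm A) (hI : G.IrrA) (hK : G.KerB) (he : CP A e) (h1 : e ≠ 1)
    (hT : eᵀ = 1 - e) : ∀ a ∈ A, ∀ b ∈ A, e * (a * b - b * a) = 0 := by
  obtain ⟨f, hf⟩ : ∃ f, f = 1 - e := ⟨_, rfl⟩
  have hf' : CP A f := hf ▸ he.one_sub hA.star
  have hef : e * f = 0 := by rw [hf, mul_sub, mul_one, he.2.2.1, sub_self]
  have heT : eᵀ = f := by rw [hT, hf]
  have hfT : fᵀ = e := by rw [← heT, transpose_transpose]
  -- symmetric
  have hsym : ∀ F ∈ G.h1, ∀ F' ∈ G.h1, ∀ a ∈ A,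
      ((F' * f)ᴴ * (F * e) * a)ᵀ = (F' * f)ᴴ * (F * e) * a := by
    intro F hF F' hF' a ha
    have h2 := fact1 hA he (hA.mod _ (hA.mod F hF e he.1) a ha) (hA.mod F' hF' _ hf'.1)
    rw [← Matrix.mul_assoc] at h2
    obtain ⟨N, hN⟩ : ∃ N, N = (F' * f)ᴴ * (F * e) * a := ⟨_, rfl⟩
    rw [← hN] at h2 ⊢
    have e1 : N * e = N := by
      rw [hN, mul_assoc, ← he.2.1 a ha, ← mul_assoc, Matrix.mul_assoc (F' * f)ᴴ,
        Matrix.mul_assoc F, he.2.2.1]
    have e2 : e * N = 0 := by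
      rw [hN, conjTranspose_mul, hf'.2.2.2, ← mul_assoc, ← Matrix.mul_assoc,
        ← Matrix.mul_assoc e, hef, Matrix.zero_mul, Matrix.zero_mul, Matrix.zero_mul]
    have e3 : f * Nᵀ = Nᵀ := by
      have := congrArg transpose e1
      rwa [transpose_mul, heT] at this
    have e4 : Nᵀ * f = 0 := by
      have := congrArg transpose e2
      rwa [transpose_mul, heT, transpose_zero] at this
    have e5 : e * Nᵀ = 0 := by
      rw [← e3, ← mul_assoc, hef, zero_mul]
    have e6 : Nᵀ * e = Nᵀ := by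
      rw [hf, mul_sub, mul_one] at e4
      exact (sub_eq_zero.1 e4).symm
    rw [sub_mul, mul_sub, e1, e2, e5, e6, sub_zero] at h2
    exact sub_eq_zero.1 h2
  intro a ha b hb
  refine kerB hK fun F hF => ?_
  rw [← Matrix.mul_assoc]
  have hU : U G f = ⊤ := by
    rcases hI (U G f) (U_stab hA hf') with h | h
    · exfalso
      apply h1
      have := U_bot hK h
      rw [hf] at this
      exact (sub_eq_zero.1 this).symm
    · exact h
  refine U_top hU fun F' hF' => ?_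
  rw [← Matrix.mul_assoc]
  obtain ⟨N, hN⟩ : ∃ N, N = (F' * f)ᴴ * (F * e) := ⟨_, rfl⟩
  have h2 : ∀ c ∈ A, (N * c)ᵀ = N * c := fun c hc => by rw [hN]; exact hsym F hF F' hF' c hc
  have h3 : Nᵀ = N := by
    have := h2 1 hA.star.1
    rwa [mul_one] at this
  have h4 : ∀ c ∈ A, N * c = cᵀ * N := fun c hc => by rw [← h2 c hc, transpose_mul, h3]
  rw [← hN, mul_sub, ← mul_assoc, ← mul_assoc, sub_eq_zero]
  calc N * a * b = aᵀ * (bᵀ * N) := by rw [h4 a ha, mul_assoc, h4 b hb]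
    _ = (b * a)ᵀ * N := by rw [transpose_mul, mul_assoc]
    _ = N * (b * a) := (h4 _ (hA.star.2.1 b hb a ha)).symm
    _ = N * b * a := by rw [mul_assoc]

theorem cen2 (hS : S_span) : S_cen2 := by
  intro p q G A hA hI hK hk e heA hec heP
  have he : CP A e := ⟨heA, hec, heP.1, heP.2⟩
  rcases alt hA hI hK he with h | h | h
  · exact Or.inl h
  · exact Or.inr h
  by_cases h1 : e = 1
  · exact Or.inr h1
  exfalso
  have hc := comm hA hI hK he h1 h
  -- the centre
  obtain ⟨Z, hZ⟩ : ∃ Z : Submodule ℂ (Matrix (Fin q) (Fin q) ℂ),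
    ∀ z, z ∈ Z ↔ z ∈ A ∧ ∀ a ∈ A, z * a = a * z :=
    ⟨A ⊓ com (A : Set (Matrix (Fin q) (Fin q) ℂ)), fun z => Iff.rfl⟩
  have hZs : IsStar Z := by
    refine ⟨(hZ 1).2 ⟨hA.star.1, fun a _ => by rw [one_mul, mul_one]⟩, fun a ha b hb => ?_,
      fun a ha => ?_⟩
    · rw [hZ] at ha hb ⊢
      refine ⟨hA.star.2.1 a ha.1 b hb.1, fun c hc => ?_⟩
      rw [mul_assoc, hb.2 c hc, ← mul_assoc, ha.2 c hc, mul_assoc]
    · rw [hZ] at ha ⊢
      refine ⟨hA.star.2.2 a ha.1, fun c hc => ?_⟩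
      have h2 := congrArg conjTranspose (ha.2 _ (hA.star.2.2 c hc))
      rw [conjTranspose_mul, conjTranspose_mul, conjTranspose_conjTranspose] at h2
      exact h2.symm
  have hsc : ∀ z ∈ Z, ∃ c : ℂ, z * e = c • e := by
    intro z hz
    have h2 := hS (Fin q) Z hZs hz
    refine Submodule.span_induction (p := fun z _ => ∃ c : ℂ, z * e = c • e) ?_ ?_ ?_ ?_ h2
    · rintro g ⟨hg, hgP⟩
      rw [hZ] at hg
      have hg' : CP A g := ⟨hg.1, hg.2, hgP.1, hgP.2⟩
      have hge := hg'.mul hA.star he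
      have hgee : g * e * e = g * e := by rw [mul_assoc, he.2.2.1]
      rcases alt hA hI hK hge with h3 | h3 | h3
      · exact ⟨0, by rw [h3, zero_smul]⟩
      · exfalso
        rw [h3, one_mul] at hgee
        exact h1 hgee
      · refine ⟨1, ?_⟩
        have h4 := congrArg transpose hgee
        rw [transpose_mul, h, h3, mul_sub, sub_mul, one_mul, mul_one, sub_mul, one_mul] at h4
        have h5 : e * (g * e) = g * e := by rw [← hge.2.1 e he.1, hgee]
        rw [h5] at h4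
        rw [one_smul]
        have h6 : e - g * e = 0 := by
          have h7 : 1 - g * e - (1 - e - (g * e - g * e)) = 0 := by
            rw [sub_eq_zero]
            rw [← h4]
          rw [← h7]
          abel
        exact (sub_eq_zero.1 h6).symm
    · exact ⟨0, by rw [zero_mul, zero_smul]⟩
    · rintro x y _ _ ⟨c, hc⟩ ⟨d, hd⟩
      exact ⟨c + d, by rw [add_mul, hc, hd, add_smul]⟩
    · rintro r x _ ⟨c, hc⟩
      exact ⟨r * c, by rw [smul_mul_assoc, hc, smul_smul]⟩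
  have hAe : ∀ a ∈ A, a * e ∈ Z := by
    intro a ha
    rw [hZ]
    refine ⟨hA.star.2.1 a ha e he.1, fun b hb => ?_⟩
    have h2 := hc a ha b hb
    rw [mul_sub, sub_eq_zero] at h2
    calc a * e * b = e * (a * b) := by rw [← he.2.1 a ha, mul_assoc]
      _ = e * (b * a) := h2
      _ = b * (a * e) := by rw [← mul_assoc, he.2.1 b hb, mul_assoc, he.2.1 a ha]
  have hspan : G.kk ≤ Submodule.span ℂ {e - (1 - e)} := by
    intro D hD
    have hDA : D ∈ A := hA.kle hD
    have hDT : Dᵀ = -D := G.skew0 (0, D) hD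
    obtain ⟨c, hc⟩ := hsc _ (hAe D hDA)
    rw [mul_assoc, he.2.2.1] at hc
    have h2 := congrArg transpose hc
    rw [transpose_mul, transpose_smul, h, hDT, mul_neg, sub_mul, one_mul, he.2.1 D hDA, hc] at h2
    rw [Submodule.mem_span_singleton]
    refine ⟨c, ?_⟩
    rw [smul_sub, ← h2]
    abel
  have h2 : finrank ℂ G.kk ≤ 1 :=
    (Submodule.finrank_mono hspan).trans ((finrank_span_le_card _).trans (by simp))
  omega

end

end Pool.Agent.W338.PG
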