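import Pool.Agent.W544.PG.Defs3

/-!
Project PG (owner helper544), part GHT: from `T` to the total cohomology.
-/

set_option autoImplicit false

open Matrix Finset Module

namespace Pool.Agent.W338.PG.Ght

open Pool.Agent.W544.PG

noncomputable section

variable {n s m k : ℕ}

/-- numbering of the transcendental slots -/
structure Pt (q : Fin m → Fin s ⊕ Fin k) (ε : Fin k → Fin m) : Prop where
  mono : StrictMono ε
  qe : ∀ i', q (ε i') = Sum.inr i'
  eq : ∀ i i', q i = Sum.inr i' → ε i' = i

/-- insertion of the algebraic classes -/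
def mrg (q : Fin m → Fin s ⊕ Fin k) (K : Fin k → Fin n) : Fin m → Fin s ⊕ Fin n :=
  fun i => Sum.map id K (q i)

variable {q : Fin m → Fin s ⊕ Fin k} {ε : Fin k → Fin m}

theorem mrg_e (h : Pt q ε) (K : Fin k → Fin n) (i' : Fin k) : mrg q K (ε i') = Sum.inr (K i') := by
  unfold mrg
  rw [h.qe]
  rfl

theorem mrg_inj (h : Pt q ε) {K K' : Fin k → Fin n} (he : mrg q K = mrg q K') : K = K' := by
  funext i'
  have h1 := congrFun he (ε i')
  rw [mrg_e h, mrg_e h] at h1
  exact Sum.inr_injective h1

theorem mrg_update (h : Pt q ε) (K : Fin k → Fin n) (i' : Fin k) (l : Fin n) :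
    Function.update (mrg q K) (ε i') (Sum.inr l) = mrg q (Function.update K i' l) := by
  funext i
  by_cases hi : i = ε i'
  · subst hi
    rw [Function.update_self, mrg_e h, Function.update_self]
  · rw [Function.update_of_ne hi]
    unfold mrg
    rcases hq : q i with a | i''
    · rfl
    · have h1 : i'' ≠ i' := by
        rintro rfl
        exact hi (h.eq i _ hq).symm
      rw [Sum.map_inr, Sum.map_inr, Function.update_of_ne h1]

/-- the action as a linear map -/
def actL {ι : Type} [Fintype ι] [DecidableEq ι] {k : ℕ} (y : Matrix ι ι ℂ) :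
    ((Fin k → ι) → ℂ) →ₗ[ℂ] ((Fin k → ι) → ℂ) where
  toFun := act y
  map_add' a b := by
    funext J
    simp only [act, Pi.add_apply, mul_add, sum_add_distrib]
  map_smul' c a := by
    funext J
    simp only [act, Pi.smul_apply, smul_eq_mul, mul_sum, RingHom.id_apply]
    refine sum_congr rfl fun j _ => sum_congr rfl fun l _ => ?_
    ring

theorem act_comm (T : HS n) (h : Pt q ε) (w : (Fin m → Fin s ⊕ Fin n) → ℂ) :
    act T.x (fun K : Fin k → Fin n => w (mrg q K)) = fun K => act (T.xS s) w (mrg q K) := by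
  funext K
  unfold act
  refine Fintype.sum_of_injective ε h.mono.injective _ _ (fun i hi => ?_) (fun i' => ?_)
  · refine sum_eq_zero fun l _ => ?_
    have h1 : T.xS s l (mrg q K i) = 0 := by
      unfold mrg
      rcases hq : q i with a | i'
      · rw [Sum.map_inl]
        unfold HS.xS
        rcases l with l | l
        · rw [fromBlocks_apply₁₁]; rfl
        · rw [fromBlocks_apply₂₁]; rfl
      · exact absurd ⟨i', h.eq i i' hq⟩ hi
    rw [h1, zero_mul]
  · rw [Fintype.sum_sum_type]
    have h1 : ∀ l : Fin s, T.xS s (Sum.inl l) (mrg q K (ε i')) = 0 := fun l => by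
      rw [mrg_e h]
      unfold HS.xS
      rw [fromBlocks_apply₁₂]
      rfl
    have h2 : ∀ l : Fin n, T.xS s (Sum.inr l) (mrg q K (ε i')) = T.x l (K i') := fun l => by
      rw [mrg_e h]
      unfold HS.xS
      rw [fromBlocks_apply₂₂]
    simp only [h1, h2, zero_mul, sum_const_zero, zero_add, mrg_update h]

theorem quot {V V' : Type} [AddCommGroup V] [Module ℂ V] [FiniteDimensional ℂ V]
    [AddCommGroup V'] [Module ℂ V'] [FiniteDimensional ℂ V'] (D : V →ₗ[ℂ] V) (D' : V' →ₗ[ℂ] V')
    (π : V →ₗ[ℂ] V') (hπ : ∀ v, π (D v) = D' (π v)) (U : Submodule ℂ V) (hU : ∀ u ∈ U, D u ∈ U)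
    (a : ℂ) (h : ∀ w ∈ U, D w = a • w → w = 0) :
    ∀ w' ∈ U.map π, D' w' = a • w' → w' = 0 := by
  obtain ⟨E, hE⟩ : ∃ E : U →ₗ[ℂ] U, ∀ u, (E u : V) = D u - a • (u : V) :=
    ⟨(D - a • LinearMap.id).restrict (fun u hu => by
      simpa using U.sub_mem (hU u hu) (U.smul_mem a hu)), fun u => by simp⟩
  have hU' : ∀ u ∈ U.map π, D' u ∈ U.map π := by
    rintro _ ⟨u, hu, rfl⟩
    rw [← hπ]
    exact ⟨_, hU u hu, rfl⟩
  obtain ⟨E', hE'⟩ : ∃ E' : U.map π →ₗ[ℂ] U.map π, ∀ u, (E' u : V') = D' u - a • (u : V') :=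
    ⟨(D' - a • LinearMap.id).restrict (fun u hu => by
      simpa using (U.map π).sub_mem (hU' u hu) ((U.map π).smul_mem a hu)), fun u => by simp⟩
  have hi : Function.Injective E := by
    rw [injective_iff_map_eq_zero]
    intro u hu
    have h1 := hE u
    rw [hu] at h1
    have h2 := h u u.2 (sub_eq_zero.1 h1.symm)
    exact Subtype.ext h2
  have hs := LinearMap.injective_iff_surjective.1 hi
  have hs' : Function.Surjective E' := by
    rintro ⟨_, u, hu, rfl⟩
    obtain ⟨v, hv⟩ := hs ⟨u, hu⟩
    refine ⟨⟨π v, v, v.2, rfl⟩, Subtype.ext ?_⟩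
    rw [hE']
    show D' (π v) - a • π v = π u
    rw [← hπ, ← map_smul, ← map_sub, ← hE, hv]
  have hi' := LinearMap.injective_iff_surjective.2 hs'
  intro w' hw' h1
  have h2 : E' ⟨w', hw'⟩ = 0 := Subtype.ext (by rw [hE']; exact sub_eq_zero.2 h1)
  have h3 := hi' (h2.trans (map_zero E').symm)
  exact congrArg Subtype.val h3

theorem ins0 (T : HS n) (k : ℕ) (g : (Fin k → Fin n) → ℚ) : g ∈ T.ins k 0 := by
  refine Submodule.subset_span ⟨id, g, fun _ => rfl, by simp, fun J J' h => ?_, fun J => ?_⟩
  · rw [show J = J' from funext fun j => h j rfl]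
  · simp

/-- re-insertion -/
def rho (q : Fin m → Fin s ⊕ Fin k) :
    ((Fin k → Fin n) → ℚ) →ₗ[ℚ] ((Fin m → Fin s ⊕ Fin n) → ℚ) where
  toFun g J := ∑ K, if mrg q K = J then g K else 0
  map_add' a b := by
    funext J
    simp only [Pi.add_apply, ← sum_add_distrib]
    refine sum_congr rfl fun K _ => ?_
    split_ifs <;> simp
  map_smul' c a := by
    funext J
    simp only [Pi.smul_apply, smul_eq_mul, mul_sum, RingHom.id_apply]
    refine sum_congr rfl fun K _ => ?_
    split_ifs <;> simp

theorem rho_mrg (h : Pt q ε) (g : (Fin k → Fin n) → ℚ) (K : Fin k → Fin n) :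
    rho q g (mrg q K) = g K := by
  show (∑ K', if mrg q K' = mrg q K then g K' else 0) = g K
  rw [sum_eq_single K (fun K' _ hK => if_neg fun he => hK (mrg_inj h he))
    (fun hK => absurd (mem_univ _) hK), if_pos rfl]

theorem rho_not (g : (Fin k → Fin n) → ℚ) (J : Fin m → Fin s ⊕ Fin n)
    (h : ∀ K, mrg q K ≠ J) : rho q g J = 0 :=
  sum_eq_zero fun K _ => if_neg (h K)

theorem rho_coniv (T : HS n) (h : Pt q ε) (cd : Fin s → ℕ) (l j : ℕ)
    (hj : j ≤ ∑ i, Sum.elim cd (fun _ => 0) (q i) + 2 * l) {g : (Fin k → Fin n) → ℚ}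
    (hg : g ∈ T.ins k l) : rho q g ∈ T.coniv cd m j := by
  have key : (T.ins k l).map (rho q) ≤ T.coniv cd m j := by
    unfold HS.ins
    rw [Submodule.map_span_le]
    rintro f ⟨σ, u, hσ, hl, hu, hf⟩
    classical
    obtain ⟨σ', hσ'⟩ : ∃ σ' : Fin m → Fin m, ∀ i, σ' i =
      Sum.elim (fun _ => i) (fun i' => ε (σ i')) (q i) := ⟨_, fun _ => rfl⟩
    obtain ⟨ν, hν⟩ : ∃ ν : Fin m → Fin s → ℚ, ∀ i, ν i =
      Sum.elim (fun a => Pi.single a 1) (fun _ => 0) (q i) := ⟨_, fun _ => rfl⟩
    obtain ⟨u', hu1, hu2⟩ : ∃ u' : (Fin m → Fin s ⊕ Fin n) → ℚ,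
        (∀ J K, (∀ i', σ i' = i' → J (ε i') = Sum.inr (K i')) → u' J = u K) ∧
        ∀ J, (¬ ∃ K : Fin k → Fin n, ∀ i', σ i' = i' → J (ε i') = Sum.inr (K i')) →
          u' J = 0 := by
      refine ⟨fun J => if h : ∃ K : Fin k → Fin n, ∀ i', σ i' = i' →
        J (ε i') = Sum.inr (K i') then u (Classical.choose h) else 0, ?_, ?_⟩
      · intro J K hK
        have hex : ∃ K : Fin k → Fin n, ∀ i', σ i' = i' → J (ε i') = Sum.inr (K i') := ⟨K, hK⟩
        beta_reduce
        rw [dif_pos hex]
        refine hu _ _ fun i' hi' => ?_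
        have h1 := Classical.choose_spec hex i' hi'
        rw [hK i' hi'] at h1
        exact (Sum.inr_injective h1).symm
      · intro J hJ
        beta_reduce
        rw [dif_neg hJ]
    have hσe : ∀ i', σ' (ε i') = ε (σ i') := fun i' => by rw [hσ', h.qe]; rfl
    refine Submodule.subset_span ⟨univ.filter (fun i => (q i).isLeft = true), σ',
      fun i => Sum.elim cd (fun _ => 0) (q i), ν, u', fun i => ?_, fun i hi => ?_,
      fun i a ha => ?_, fun J J' hJ => ?_, ?_, fun J => ?_⟩
    · rcases hq : q i with a | i'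
      · have h1 : σ' i = i := by rw [hσ', hq]; rfl
        rw [h1, h1]
      · rw [← h.eq i i' hq, hσe, hσe, hσ]
    · rw [mem_filter] at hi
      rcases hq : q i with a | i'
      · rw [hσ', hq]; rfl
      · rw [hq] at hi
        exact absurd hi.2 (by simp)
    · rw [hν] at ha
      rcases hq : q i with b | i'
      · rw [hq, Sum.elim_inl] at ha
        have : a = b := by
          by_contra hab
          exact ha (Pi.single_eq_of_ne hab 1)
        beta_reduce
        rw [this, hq]
        rfl
      · rw [hq, Sum.elim_inr] at ha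
        exact absurd rfl ha
    · have h1 : ∀ i', σ i' = i' → J (ε i') = J' (ε i') := fun i' hi' => by
        refine hJ _ ?_ ?_
        · rw [mem_filter, h.qe]
          simp
        · rw [hσe, hi']
      by_cases hex : ∃ K : Fin k → Fin n, ∀ i', σ i' = i' → J (ε i') = Sum.inr (K i')
      · obtain ⟨K, hK⟩ := hex
        rw [hu1 J K hK, hu1 J' K fun i' hi' => by rw [← h1 i' hi']; exact hK i' hi']
      · rw [hu2 J hex, hu2 J']
        rintro ⟨K, hK⟩
        exact hex ⟨K, fun i' hi' => by rw [h1 i' hi']; exact hK i' hi'⟩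
    · have h1 : ∑ i ∈ univ.filter (fun i => (q i).isLeft = true),
          Sum.elim cd (fun _ => 0) (q i) = ∑ i, Sum.elim cd (fun _ => 0) (q i) := by
        refine sum_subset (filter_subset _ _) fun i _ hi => ?_
        rw [mem_filter] at hi
        rcases hq : q i with b | i'
        · exfalso
          apply hi
          rw [hq]
          exact ⟨mem_univ _, rfl⟩
        · rfl
      have h2 : (univ.filter fun i' => σ i' ≠ i').card ≤ (univ.filter fun i => σ' i ≠ i).card := by
        refine card_le_card_of_injOn ε (fun i' hi' => ?_) (h.mono.injective.injOn)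
        have h3 := (mem_filter.1 (mem_coe.1 hi')).2
        refine mem_coe.2 (mem_filter.2 ⟨mem_univ _, ?_⟩)
        rw [hσe]
        exact fun he => h3 (h.mono.injective he)
      rw [h1]
      omega
    · by_cases hJ : ∃ K, mrg q K = J
      · obtain ⟨K, rfl⟩ := hJ
        rw [rho_mrg h, hf K, hu1 _ K fun i' _ => mrg_e h K i']
        have h1 : ∏ i ∈ univ.filter (fun i => (q i).isLeft = true),
            Sum.elim (ν i) (fun _ => (0 : ℚ)) (mrg q K i) = 1 := by
          refine prod_eq_one fun i hi => ?_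
          rw [mem_filter] at hi
          rw [hν]
          unfold mrg
          rcases hq : q i with b | i'
          · simp
          · rw [hq] at hi
            exact absurd hi.2 (by simp)
        have h2 : (univ.filter fun i => i < σ' i) =
            (univ.filter fun i' => i' < σ i').image ε := by
          ext i
          rw [mem_filter, mem_image]
          constructor
          · rintro ⟨-, hi⟩
            rcases hq : q i with b | i'
            · rw [hσ', hq, Sum.elim_inl] at hi
              exact absurd hi (lt_irrefl _)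
            · have h3 := h.eq i i' hq
              rw [← h3, hσe] at hi
              exact ⟨i', mem_filter.2 ⟨mem_univ _, h.mono.lt_iff_lt.1 hi⟩, h3⟩
          · rintro ⟨i', hi', rfl⟩
            refine ⟨mem_univ _, ?_⟩
            rw [hσe]
            exact h.mono (mem_filter.1 hi').2
        rw [h1, one_mul, h2, prod_image (fun a _ b _ hab => h.mono.injective hab)]
        congr 1
        refine prod_congr rfl fun i' _ => ?_
        rw [hσe, mrg_e h, mrg_e h, fromBlocks_apply₂₂]
      · rw [rho_not _ _ fun K hK => hJ ⟨K, hK⟩]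
        by_contra hne
        have hne' := Ne.symm hne
        obtain ⟨h12, h3⟩ := mul_ne_zero_iff.1 hne'
        obtain ⟨h1, h2⟩ := mul_ne_zero_iff.1 h12
        rw [prod_ne_zero_iff] at h1 h2
        have a1 : ∀ i b, q i = Sum.inl b → J i = Sum.inl b := by
          intro i b hb
          have h4 := h1 i (mem_filter.2 ⟨mem_univ _, by rw [hb]; rfl⟩)
          rw [hν, hb, Sum.elim_inl] at h4
          rcases hJi : J i with a | a
          · rw [hJi, Sum.elim_inl] at h4
            by_contra hab
            refine h4 (Pi.single_eq_of_ne (fun he => hab ?_) 1)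
            rw [he]
          · rw [hJi, Sum.elim_inr] at h4
            exact absurd rfl h4
        have a2 : ∀ i', i' < σ i' → (∃ c, J (ε i') = Sum.inr c) ∧
            ∃ c, J (ε (σ i')) = Sum.inr c := by
          intro i' hi'
          have h4 := h2 (ε i') (mem_filter.2 ⟨mem_univ _, by rw [hσe]; exact h.mono hi'⟩)
          rw [hσe] at h4
          rcases hJ1 : J (ε i') with a | a <;> rcases hJ2 : J (ε (σ i')) with b | b
          · rw [hJ1, hJ2, fromBlocks_apply₁₁] at h4
            exact absurd rfl h4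
          · rw [hJ1, hJ2, fromBlocks_apply₁₂] at h4
            exact absurd rfl h4
          · rw [hJ1, hJ2, fromBlocks_apply₂₁] at h4
            exact absurd rfl h4
          · exact ⟨⟨a, rfl⟩, b, rfl⟩
        have a3 : ∃ K0 : Fin k → Fin n, ∀ i', σ i' = i' → J (ε i') = Sum.inr (K0 i') := by
          by_contra hno
          exact h3 (hu2 J hno)
        obtain ⟨K0, hK0⟩ := a3
        have a4 : ∀ i', ∃ c, J (ε i') = Sum.inr c := by
          intro i'
          rcases lt_trichotomy i' (σ i') with hlt | heq | hgt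
          · exact (a2 i' hlt).1
          · exact ⟨_, hK0 i' heq.symm⟩
          · have h4 := (a2 (σ i') (by rw [hσ]; exact hgt)).2
            rwa [hσ] at h4
        choose K hK using a4
        refine hJ ⟨K, funext fun i => ?_⟩
        unfold mrg
        rcases hq : q i with b | i'
        · rw [a1 i b hq]
          rfl
        · rw [← h.eq i i' hq, hK]
          rfl
  exact key ⟨g, hg, rfl⟩

/-- existence of the numbering -/
theorem pt_exists (q' : Fin m → Option (Fin s)) : ∃ (k : ℕ) (q : Fin m → Fin s ⊕ Fin k)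
    (ε : Fin k → Fin m), Pt q ε ∧ ∀ i, q' i = Sum.elim some (fun _ => none) (q i) := by
  classical
  obtain ⟨B, hB⟩ : ∃ B : Finset (Fin m), ∀ i, i ∈ B ↔ q' i = none :=
    ⟨univ.filter fun i => q' i = none, fun i => by simp⟩
  let iso := B.orderIsoOfFin rfl
  have hex : ∀ i, ∃ z : Fin s ⊕ Fin B.card, q' i = Sum.elim some (fun _ => none) z ∧
      ∀ i', z = Sum.inr i' → (iso i' : Fin m) = i := by
    intro i
    rcases hq : q' i with _ | a
    · refine ⟨Sum.inr (iso.symm ⟨i, (hB i).2 hq⟩), rfl, fun i' hi' => ?_⟩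
      rw [← Sum.inr_injective hi', OrderIso.apply_symm_apply]
    · exact ⟨Sum.inl a, rfl, fun i' hi' => absurd hi' (by simp)⟩
  choose q hq1 hq2 using hex
  refine ⟨B.card, q, fun i' => (iso i' : Fin m), ⟨fun a b hab => ?_, fun i' => ?_,
    fun i i' h => hq2 i i' h⟩, hq1⟩
  · exact iso.strictMono hab
  · have h1 : q' (iso i' : Fin m) = none := (hB _).1 (iso i').2
    rcases hq : q (iso i' : Fin m) with a | i''
    · rw [hq1, hq] at h1
      exact absurd h1 (by simp)
    · have h2 := hq2 _ i'' hq
      have h3 : i'' = i' := iso.injective (Subtype.ext h2)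
      rw [h3]

theorem ght : S_ght := by
  intro n p s m c j T cd H W hWs hWc hWa w hw
  classical
  -- the parts of `w`
  have hsum : w = ∑ q' : Fin m → Option (Fin s), fun J =>
      if (fun i => Sum.elim some (fun _ => none) (J i)) = q' then w J else 0 := by
    funext J
    rw [Finset.sum_apply, Finset.sum_ite_eq, if_pos (mem_univ _)]
  rw [hsum]
  refine Submodule.sum_mem _ fun q' _ => ?_
  obtain ⟨k, q, ε, h, hq'⟩ := pt_exists q'
  have hpart : (fun J => if (fun i => Sum.elim some (fun _ => none) (J i)) = q' then w J else 0) =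
      rho q (fun K => w (mrg q K)) := by
    funext J
    by_cases hJ : ∃ K, mrg q K = J
    · obtain ⟨K, rfl⟩ := hJ
      rw [rho_mrg h, if_pos]
      funext i
      rw [hq' i]
      unfold mrg
      rcases q i with a | i' <;> rfl
    · rw [rho_not _ _ fun K hK => hJ ⟨K, hK⟩, if_neg]
      intro he
      have h1 : ∀ i', ∃ c, J (ε i') = Sum.inr c := by
        intro i'
        have h2 := congrFun he (ε i')
        rw [hq' (ε i'), h.qe, Sum.elim_inr] at h2
        rcases hJi : J (ε i') with a | a
        · rw [hJi] at h2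
          exact absurd h2 (by simp)
        · exact ⟨a, rfl⟩
      choose K hK using h1
      refine hJ ⟨K, funext fun i => ?_⟩
      unfold mrg
      rcases hq : q i with b | i'
      · have h2 := congrFun he i
        rw [hq' i, hq, Sum.elim_inl] at h2
        rcases hJi : J i with a | a
        · rw [hJi, Sum.elim_inl] at h2
          rw [Option.some_injective _ h2]
          rfl
        · rw [hJi] at h2
          exact absurd h2 (by simp)
      · rw [← h.eq i i' hq, hK]
        rfl
  rw [hpart]
  by_cases hz : ∀ w₁ ∈ W, ∀ K : Fin k → Fin n, w₁ (mrg q K) = 0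
  · have h1 : (fun K : Fin k → Fin n => w (mrg q K)) = 0 := funext fun K => hz w hw K
    rw [h1, map_zero]
    exact Submodule.zero_mem _
  push Not at hz
  obtain ⟨w₁, hw₁, K₁, hK₁⟩ := hz
  obtain ⟨hc, hkp⟩ := hWc w₁ hw₁ _ hK₁
  have hcard : (univ.filter fun i => (mrg q K₁ i).isRight = true).card = k := by
    have h1 : (univ.filter fun i => (mrg q K₁ i).isRight = true) = univ.image ε := by
      ext i
      rw [mem_filter, mem_image]
      constructor
      · rintro ⟨-, hi⟩
        unfold mrg at hi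
        rcases hq : q i with b | i'
        · rw [hq] at hi
          exact absurd hi (by simp)
        · exact ⟨i', mem_univ _, h.eq i i' hq⟩
      · rintro ⟨i', -, rfl⟩
        refine ⟨mem_univ _, ?_⟩
        rw [mrg_e h]
        rfl
    rw [h1, card_image_of_injective _ h.mono.injective, card_univ, Fintype.card_fin]
  rw [hcard] at hkp
  have hck : ∑ i, Sum.elim cd (fun _ => 0) (q i) + k = c := by
    have h1 : ∀ i, Sum.elim cd (fun _ => 1) (mrg q K₁ i) = Sum.elim cd (fun _ => 0) (q i) +
        if (mrg q K₁ i).isRight = true then 1 else 0 := by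
      intro i
      unfold mrg
      rcases q i with b | i' <;> simp
    rw [← hc]
    simp_rw [h1]
    rw [sum_add_distrib, ← card_filter, hcard]
  obtain ⟨e, he⟩ : ∃ e, e = ∑ i, Sum.elim cd (fun _ => 0) (q i) := ⟨_, rfl⟩
  by_cases hje : j ≤ e
  · exact rho_coniv T h cd 0 j (by rw [← he]; omega) (ins0 T k _)
  -- the main case
  obtain ⟨l, hl⟩ : ∃ l, l = (j - e + 1) / 2 := ⟨_, rfl⟩
  refine rho_coniv T h cd l j (by rw [← he]; omega) ?_
  obtain ⟨Wq, hWq⟩ : ∃ Wq : Submodule ℚ ((Fin k → Fin n) → ℚ),
    Wq = W.map (LinearMap.funLeft ℚ ℚ (mrg q)) := ⟨_, rfl⟩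
  have hcs : cspan Wq = (cspan W).map (LinearMap.funLeft ℂ ℂ (mrg q)) := by
    unfold cspan
    rw [Submodule.map_span, hWq]
    congr 1
    ext f
    constructor
    · rintro ⟨_, ⟨g, hg, rfl⟩, rfl⟩
      exact ⟨cx g, ⟨g, hg, rfl⟩, rfl⟩
    · rintro ⟨_, ⟨g, hg, rfl⟩, rfl⟩
      exact ⟨_, ⟨g, hg, rfl⟩, rfl⟩
  have hcomm : ∀ v : (Fin m → Fin s ⊕ Fin n) → ℂ,
      LinearMap.funLeft ℂ ℂ (mrg q) (actL (T.xS s) v) =
        actL T.x (LinearMap.funLeft ℂ ℂ (mrg (n := n) q) v) := fun v => (act_comm T h v).symm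
  have hle : Wq ≤ T.ins k l := by
    refine H k l hkp Wq ?_ ?_
    · intro v hv
      rw [hcs] at hv ⊢
      obtain ⟨v, hv, rfl⟩ := hv
      exact ⟨actL (T.xS s) v, hWs v hv, hcomm v⟩
    · intro a ha v hv
      rw [hcs] at hv
      refine quot (actL (T.xS s)) (actL T.x) (LinearMap.funLeft ℂ ℂ (mrg q)) hcomm (cspan W)
        hWs (a : ℂ) ?_ v hv
      refine hWa a ?_
      have h1 : (c : ℤ) = e + k := by rw [he]; exact_mod_cast hck.symm
      omega
  apply hle
  rw [hWq]
  exact ⟨w, hw, rfl⟩

end

end Pool.Agent.W338.PG.Ght
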